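import Pool.Agent.Y806.NG.LowTwo
import Pool.Agent.Y806.NG.Nice

set_option autoImplicit false

/-!
# The topological Hedetniemi equality fails for every nice group of non-prime order

For every nice group `G` (a cyclic group of prime power order or a generalized quaternion group of
two-power order) whose order is not a prime there are two finite free `G`-simplicial complexes of
index at least two whose product has index at most one.

Let `c ∈ G` have order `p ^ 2`, with `z = c ^ p` generating the smallest subgroup.  The first
complex is coinduced from the circle of the subgroup generated by `z` (functions on `G`), the second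
one is induced from the `2`-skeleton `E_2` of that subgroup.  The product maps to `E_1 G` by
evaluation.  A map of the first complex to `E_1 G` is restricted to an annulus whose two ends are
circles on which `c` acts as a rotation by `1` and by `1 + p` steps out of `p ^ 2`; comparing
winding numbers gives `1 + p = 1` modulo `p ^ 2`.

The definitions are those of `Pool/Agent/Results/MP_19f4d1_co/CyclicOrderFour.lean`.
-/

namespace Pool.Agent.Results.MP_19f4d1_co.NiceGroups

open Pool.Agent.Results.MP_19f4d1_co.CyclicOrderFour Pool.Agent.Y806.NG

/-- **For every nice group `G` of non-prime order** there are finite free `G`-simplicial complexes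
`K₁`, `K₂` of index at least two whose product has index at most one, so that the index of the
product is smaller than the minimum of the indices. -/
theorem result (G : Type) [Group G] [Fintype G] (hG : IsNice G) (hn : ¬ (Nat.card G).Prime) :
    ∃ K₁ K₂ : GComplex G, K₁.IsFree ∧ K₂.IsFree ∧
      2 ≤ ind G K₁.Realization ∧ 2 ≤ ind G K₂.Realization ∧
      ind G (K₁.Realization × K₂.Realization) ≤ 1 ∧
      ind G (K₁.Realization × K₂.Realization) <
        min (ind G K₁.Realization) (ind G K₂.Realization) := by
  obtain ⟨p, c, hp, hc, hcomm, hU⟩ := nice_structure hG hn
  have : NeZero p := ⟨by omega⟩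
  have hz : orderOf (c ^ p) = p := by
    have hp0 : p ≠ 0 := by omega
    rw [orderOf_pow_of_dvd hp0 (by rw [hc]; exact dvd_pow_self p (by norm_num)), hc, pow_two,
      Nat.mul_div_cancel _ (by omega)]
  have h1 : 2 ≤ ind G (K1 (c ^ p) p).Realization := K1_index hp hc hcomm
  have h2 : 2 ≤ ind G (K2 (c ^ p)).Realization := K2_index (c ^ p) hp hz
  have h3 : ind G ((K1 (c ^ p) p).Realization × (K2 (c ^ p)).Realization) ≤ 1 := prod_index hz
  refine ⟨K1 (c ^ p) p, K2 (c ^ p), K1_free hp hU, K2_free, h1, h2, h3, ?_⟩
  refine lt_of_le_of_lt h3 (lt_of_lt_of_le ?_ (le_min h1 h2))
  norm_num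

end Pool.Agent.Results.MP_19f4d1_co.NiceGroups
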